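import Mathlib
import Pool.Agent.H556.FX.Conv

/-!
# Admissible pairs and divisors of short sums of `S`-units

Let `a > 1`, `-a < b < a` be coprime integers and `M_p = (a ^ p - b ^ p) / (a - b)`. The pair `(a, b)` is
admissible if `a` and `b` are not both `r`-th powers (`r > 1`) and `-4ab` is not a fourth power; for
the other pairs `M_p` has algebraic factors.

We prove that the admissible pairs are exactly the pairs for which the numbers `M_p` with large
prime index `p` behave like primes with respect to short sums of `S`-units.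

If `(a, b)` is admissible, then for every finite set `S` of primes, every `r` and all real `K` and
`δ > 0` there is `ε > 0` such that for all large primes `p` and all `G = c_1 u_1 + ... + c_r u_r`
(`c_i` integers, `|c_i| ≤ M_p ^ ε`, `u_i` rational numbers composed of the primes of `S` with
numerator and denominator at most `M_p ^ K`) either `M_p` divides `G` or the greatest common divisor of
`M_p` and `G` is less than `M_p ^ δ`.

If `(a, b)` is not admissible, then there are `S`, `r` and `δ > 0` such that for all large primes `p`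
some `G` of this form, with `c_i = ±1` and `K = 2`, is not divisible by `M_p` but has with `M_p` a
common divisor `≥ M_p ^ δ`.

For instance (`a = 2`, `b = 1`) no proper divisor `d ≥ M_p ^ δ` of a large Mersenne number has a
multiple smaller than `M_p` of the form `± 2 ^ i ± 3 ^ j ± 5 ^ k ...` with `r` terms.

Proof of the first part: the counterexamples give germs of sequences along an ultrafilter. The group
of the germs of `S`-units has, modulo the units of negligible height, generators `T_1, …, T_k` which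
are algebraically independent over the field `κ` of negligible germs (subspace theorem), and
`1 - (a / b) ^ p = 1 + c T_1 ^ e` is irreducible over `κ`, by the theorem of Vahlen and Capelli: its two
conditions follow from the two conditions of admissibility because `p` is a prime number larger
than the degree of the root in question. By the theorem on the greatest common divisors of coprime
polynomials at moving `S`-unit points `G` is divisible by `M_p`.
-/

set_option autoImplicit false

namespace Pool.Agent.Results.MP_de9007_nt.AdmissibleIffGcd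

/-- the number `M_p(a, b)` of the problem -/
def Mp (a b : ℤ) (p : ℕ) : ℤ := (a ^ p - b ^ p) / (a - b)

/-- the two conditions of admissibility which do not concern the size and coprimality of `a`, `b` -/
def Admissible (a b : ℤ) : Prop :=
  (∀ r : ℕ, 1 < r → ¬ ((∃ c : ℤ, a = c ^ r) ∧ (∃ d : ℤ, b = d ^ r))) ∧
    ¬ ∃ c : ℤ, -4 * a * b = c ^ 4

/-- `g` is a sum of `r` terms `c u`, where `c` is an integer of absolute value at most `C`, and `u`
is a nonzero rational number with numerator and denominator at most `H`, whose prime factors (of the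
numerator and of the denominator) belong to `S`. -/
def IsShort (S : Finset ℕ) (r : ℕ) (C H : ℝ) (g : ℚ) : Prop :=
  ∃ (c : Fin r → ℤ) (u : Fin r → ℚ), (∀ i, |(c i : ℝ)| ≤ C) ∧ (∀ i, u i ≠ 0) ∧
    (∀ i, ∀ l : ℕ, l.Prime → (l ∣ (u i).num.natAbs ∨ l ∣ (u i).den) → l ∈ S) ∧
    (∀ i, |((u i).num : ℝ)| ≤ H ∧ ((u i).den : ℝ) ≤ H) ∧ g = ∑ i, (c i : ℚ) * u i

lemma Mp_mul {a b : ℤ} (h2 : b < a) (p : ℕ) : Mp a b p * (a - b) = a ^ p - b ^ p := by
  rw [Mp]
  exact Int.ediv_mul_cancel (sub_dvd_pow_sub_pow a b p)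

theorem result (a b : ℤ) (ha : 1 < a) (h1 : -a < b) (h2 : b < a) (hab : IsCoprime a b) :
    (Admissible a b → ∀ (S : Finset ℕ) (r : ℕ) (K δ : ℝ), 0 < δ →
      ∃ ε : ℝ, 0 < ε ∧ ∃ p₀ : ℕ, ∀ p ≥ p₀, p.Prime → ∀ g : ℚ,
        IsShort S r ((Mp a b p : ℝ) ^ ε) ((Mp a b p : ℝ) ^ K) g →
        Mp a b p ∣ g.num ∨ (Int.gcd (Mp a b p) g.num : ℝ) < (Mp a b p : ℝ) ^ δ) ∧
    (¬ Admissible a b → ∃ (S : Finset ℕ) (r : ℕ) (δ : ℝ), 0 < δ ∧
      ∃ p₀ : ℕ, ∀ p ≥ p₀, p.Prime → ∃ g : ℚ, IsShort S r 1 ((Mp a b p : ℝ) ^ (2 : ℝ)) g ∧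
        ¬ Mp a b p ∣ g.num ∧ (Mp a b p : ℝ) ^ δ ≤ (Int.gcd (Mp a b p) g.num : ℝ)) := by
  have hnat : ∀ p : ℕ, 3 ≤ p → ∃ M : ℕ, Mp a b p = (M : ℤ) ∧ (M : ℤ) * (a - b) = a ^ p - b ^ p := by
    intro p hp
    have h3 := Mp_mul h2 p
    have h4 := (Pool.Agent.H556.FX.M_lower ha h1 h2 hp h3).1
    obtain ⟨M, hM⟩ := Int.eq_ofNat_of_zero_le h4.le
    exact ⟨M, hM, by rw [← hM]; exact h3⟩
  constructor
  · intro hA S r K δ hδ
    obtain ⟨ε, hε, p₀, h⟩ := Pool.Agent.H556.FX.main (x := a) (y := b)
      ⟨ha, h1, h2, hab, hA.1, hA.2⟩ S r K δ hδ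
    refine ⟨ε, hε, p₀ + 3, fun p hp hpp g hg => ?_⟩
    obtain ⟨M, hM, hM'⟩ := hnat p (by omega)
    rw [hM] at hg ⊢
    rw [Int.cast_natCast] at hg ⊢
    obtain ⟨c, u, g1, g2, g3, g4, rfl⟩ := hg
    by_cases hF : (M : ℤ) ∣ (∑ i, (c i : ℚ) * u i).num
    · exact Or.inl hF
    · right
      apply h p (by omega) hpp M hM' c u g1 g2 g3 g4 hF
      · exact_mod_cast Int.gcd_dvd_left (M : ℤ) (∑ i, (c i : ℚ) * u i).num
      · exact Int.gcd_dvd_right _ _
  · intro hA
    obtain ⟨S, r, δ, hδ, p₀, h⟩ := Pool.Agent.H556.FX.conv ha h1 h2 hab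
      (fun hB => hA ⟨hB.pow, hB.four⟩)
    refine ⟨S, r, δ, hδ, p₀ + 3, fun p hp hpp => ?_⟩
    obtain ⟨M, hM, hM'⟩ := hnat p (by omega)
    obtain ⟨c, u, g1, g2, g3, g4, g5, g6⟩ := h p (by omega) hpp M hM'
    rw [hM, Int.cast_natCast]
    exact ⟨_, ⟨c, u, g1, g2, g3, g4, rfl⟩, g5, g6⟩

end Pool.Agent.Results.MP_de9007_nt.AdmissibleIffGcd
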