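import Pool.Agent.H541.RP.Fam3

set_option autoImplicit false

/-!
# The Lenstra-Pomerance-Wagstaff law: amplitudes without large exponents, for all pairs at once

For real `a > 1`, `|b| < a` and an amplitude `β > 0` put `N a b β p = ⌊(β a ^ p - b ^ p) / (a - b)⌋`.
For `β = 1` and integers `a`, `b` this is `M_p(a, b) = (a ^ p - b ^ p) / (a - b)`, and for a prime `p`
which does not divide `a - b` all prime factors of `M_p(a, b)` are larger than `p`; the number that is
compared with `M_p(a, b)` at other amplitudes is the `p`-rough part of `N a b β p`.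

For almost every `β` the `p`-rough part of `N a b β p` is prime for infinitely many `p` (with the
frequency of the conjecture). We prove that in every interval the set of the `β` such that, for ALL
pairs `(a, b)` of a given countable set (for instance all integer pairs, or all pairs of algebraic
numbers) SIMULTANEOUSLY, this happens for finitely many primes `p` only has full Hausdorff dimension
one. For the amplitudes of the set `N a b β p` has, for every `A` and all large primes `p`, two prime
factors larger than `p ^ A`.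
-/

namespace Pool.Agent.Results.MP_de9007_nt.AllPairsFullDimension

open Filter Topology

/-- `⌊(β a ^ p - b ^ p) / (a - b)⌋` -/
noncomputable def N (a b β : ℝ) (p : ℕ) : ℤ := ⌊(β * a ^ p - b ^ p) / (a - b)⌋

/-- `m` is divisible by a product of two (not necessarily distinct) primes larger than `B` -/
def TwoLarge (B : ℕ) (m : ℤ) : Prop :=
  ∃ q r : ℕ, q.Prime ∧ r.Prime ∧ B < q ∧ B < r ∧ ((q * r : ℕ) : ℤ) ∣ m

/-- The product, with multiplicity, of the prime factors of `m` that are larger than `p`. -/
def roughPart (p m : ℕ) : ℕ := (m.primeFactorsList.filter (fun r => p < r)).prod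

lemma not_prime_of_two {p : ℕ} {m : ℤ} (h : TwoLarge p m) : ¬ (roughPart p m.natAbs).Prime := by
  obtain ⟨q, r, hq, hr, hpq, hpr, hd⟩ := h
  intro hP
  rw [Int.natCast_dvd] at hd
  rcases Nat.eq_zero_or_pos m.natAbs with h0 | h0
  · rw [h0] at hP
    unfold roughPart at hP
    simp at hP
    exact Nat.not_prime_one hP
  have h1 : (q * r).primeFactorsList.Sublist m.natAbs.primeFactorsList :=
    Nat.primeFactorsList_sublist_of_dvd hd h0.ne'
  have h2 := h1.filter (fun x => decide (p < x))
  have hperm := Nat.perm_primeFactorsList_mul hq.ne_zero hr.ne_zero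
  rw [Nat.primeFactorsList_prime hq, Nat.primeFactorsList_prime hr] at hperm
  have h3 : ((q * r).primeFactorsList.filter (fun x => decide (p < x))).length = 2 := by
    rw [(hperm.filter _).length_eq]
    simp [hpq, hpr]
  have h4 := h2.length_le
  rw [h3] at h4
  unfold roughPart at hP
  have hall : ∀ x ∈ m.natAbs.primeFactorsList.filter (fun r => decide (p < r)), 2 ≤ x := by
    intro x hx
    rw [List.mem_filter] at hx
    exact (Nat.prime_of_mem_primeFactorsList hx.1).two_le
  rcases hl : m.natAbs.primeFactorsList.filter (fun r => decide (p < r)) with _ | ⟨x, _ | ⟨y, t⟩⟩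
  · rw [hl] at h4
    simp at h4
  · rw [hl] at h4
    simp at h4
  · rw [hl] at hP hall
    rw [List.prod_cons, List.prod_cons] at hP
    have hx := hall x (by simp)
    have hy := hall y (by simp)
    have ht : 1 ≤ t.prod := by
      rw [Nat.one_le_iff_ne_zero]
      intro h5
      rw [List.prod_eq_zero_iff] at h5
      have := hall 0 (by simp [h5])
      omega
    refine Nat.not_prime_mul (by omega) ?_ hP
    have : 2 * 1 ≤ y * t.prod := Nat.mul_le_mul hy ht
    omega

lemma special (a b : ℤ) (ha : 1 < a) (hb : |b| < a) (p : ℕ) : N a b 1 p * (a - b) = a ^ p - b ^ p := by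
  have hab : 0 < a - b := by
    have := (abs_lt.1 hb).2
    omega
  obtain ⟨k, hk⟩ := sub_dvd_pow_sub_pow a b p
  have habr : ((a : ℝ) - b) ≠ 0 := by
    have : (0 : ℝ) < (a : ℝ) - b := by exact_mod_cast hab
    exact this.ne'
  have h1 : ((1 : ℝ) * (a : ℝ) ^ p - (b : ℝ) ^ p) / ((a : ℝ) - b) = (k : ℝ) := by
    rw [div_eq_iff habr, one_mul]
    have : ((a : ℝ) ^ p - (b : ℝ) ^ p) = ((a : ℝ) - b) * k := by exact_mod_cast hk
    rw [this]
    ring
  unfold N
  rw [h1, Int.floor_intCast, hk]
  ring

/-- **Full dimension of the set of the amplitudes without large exponents, for all pairs at once.** -/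
theorem result :
    (∀ a b : ℤ, 1 < a → |b| < a → ∀ p : ℕ, N a b 1 p * (a - b) = a ^ p - b ^ p) ∧
    (∀ P : Set (ℝ × ℝ), P.Countable → (∀ x ∈ P, 1 < x.1 ∧ |x.2| < x.1) → ∀ u v : ℝ, 0 ≤ u → u < v →
      dimH {β : ℝ | β ∈ Set.Ioo u v ∧ ∀ x ∈ P,
        {p : ℕ | p.Prime ∧ (roughPart p (N x.1 x.2 β p).natAbs).Prime}.Finite ∧
        ∀ A : ℕ, ∀ᶠ p : ℕ in atTop, p.Prime → TwoLarge (p ^ A) (N x.1 x.2 β p)} = 1) := by
  refine ⟨fun a b ha hb p => special a b ha hb p, fun P hP hP2 u v hu huv => ?_⟩
  have : Countable P := hP.to_subtype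
  have hpos : ∀ x : P, 0 < x.1.1 - x.1.2 := fun x => by
    have := (abs_lt.1 (hP2 x.1 x.2).2).2
    linarith
  have key := Pool.Agent.H541.RP.dim_countable (J := P) (fun x => 1 / (x.1.1 - x.1.2)) (fun x => x.1.1)
    (fun x p => -(x.1.2 ^ p / (x.1.1 - x.1.2))) (fun x => by
      have := hpos x
      positivity) (fun x => (hP2 x.1 x.2).1) (by
      intro x
      obtain ⟨h1, h2⟩ := hP2 x.1 x.2
      have h0 : 0 < x.1.1 := by linarith
      have h3 : |x.1.2 / x.1.1| < 1 := by
        rw [abs_div, abs_of_pos h0, div_lt_one h0]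
        exact h2
      have h4 := (tendsto_pow_atTop_nhds_zero_of_abs_lt_one h3).const_mul (-(1 / (x.1.1 - x.1.2)))
      rw [mul_zero] at h4
      refine h4.congr (fun p => ?_)
      rw [div_pow]
      have := (hpos x).ne'
      field_simp) u v hu huv
  have hval : ∀ (x : P) (β : ℝ) (p : ℕ), ⌊β * (1 / (x.1.1 - x.1.2)) * x.1.1 ^ p +
      -(x.1.2 ^ p / (x.1.1 - x.1.2))⌋ = N x.1.1 x.1.2 β p := by
    intro x β p
    unfold N
    congr 1
    have := (hpos x).ne'
    field_simp
    ring
  simp only [hval] at key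
  rw [← key]
  congr 1
  ext β
  simp only [Set.mem_ofPred_eq]
  constructor
  · rintro ⟨h1, h2⟩
    exact ⟨h1, fun x A => (h2 x.1 x.2).2 A⟩
  · rintro ⟨h1, h2⟩
    refine ⟨h1, fun x hx => ⟨?_, fun A => h2 ⟨x, hx⟩ A⟩⟩
    have h3 := h2 ⟨x, hx⟩ 1
    obtain ⟨m, hm⟩ := eventually_atTop.1 h3
    refine (Set.finite_lt_nat m).subset ?_
    rintro p ⟨hp1, hp2⟩
    rw [Set.mem_ofPred_eq]
    by_contra hcon
    push Not at hcon
    have h4 := hm p hcon hp1
    rw [pow_one] at h4
    exact not_prime_of_two h4 hp2

end Pool.Agent.Results.MP_de9007_nt.AllPairsFullDimension
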