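import Pool.Agent.H559.SQ.Main
import Pool.Graph.R_pool_sql_team_seeded_707910d6.T2H32.BF.Fin

set_option autoImplicit false

/-!
# The generalized law of Lenstra, Pomerance and Wagstaff, in the random sieve model of the primes

For every prime `q` a residue class `a q` modulo `q` is drawn uniformly and independently. The random primes are the
integers `v ≥ 3` which are, for all primes `q ≤ z v`, not in the class `0` modulo `q` if `q ≤ κ log v`, and not in the
class `a q` modulo `q` if `q > κ log v`. This is the model of Banks, Ford and Tao (*Large prime gaps and probabilistic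
models*) in which the primes up to a constant times `log v` sieve out the class `0` as they do for the true primes (as in
the model of Granville). The sieving limit `z` is any nondecreasing function for which `∏_{q ≤ z v} (1 - 1 / q)` is
asymptotic to `1 / log v`; the choice `zBFT` of Banks, Ford and Tao is one of them. The constant `κ > 0` is arbitrary.

The theorem: almost surely, for ALL pairs of coprime integers `A > 1`, `-A < B < A` at once, the number of the primes
`p ≤ y` for which `M_p(A, B) = (A ^ p - B ^ p) / (A - B)` is a random prime is asymptotic to `e ^ γ log_A y`. (For the pair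
`(2, 1)` this is the law `e ^ γ log_2 y` for the Mersenne primes, for `(10, 1)` that for the repunit primes, for `(2, -1)`
that for the Wagstaff primes.) In particular the asymptotic formula of the question, with the constant `e ^ γ + m log 2`,
holds in the model exactly for the pairs with `m = m(A, B) = 0`: the additional term `m log 2` for the pairs in which `A`
and `-B` are `2 ^ m`-th powers is not produced by the divisibility of the numbers `M_p(A, B)` by small primes.
-/

open MeasureTheory ProbabilityTheory Filter Topology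

namespace Pool.Agent.Results.MP_de9007_nt.LawInTheRandomSieve

/-- `V m = ∏ (1 - 1 / q)` over the primes `q ≤ m` -/
noncomputable def V (m : ℕ) : ℝ := ∏ q ∈ (Finset.range (m + 1)).filter Nat.Prime, (1 - 1 / (q : ℝ))

/-- the classes `a q` are independent, and `a q` is uniform on `0, …, q - 1` for every prime `q` -/
structure Model {Ω : Type} [MeasurableSpace Ω] (P : Measure Ω) (a : ℕ → Ω → ℕ) : Prop where
  measurable : ∀ q, Measurable (a q)
  independent : iIndepFun a P
  uniform : ∀ q, q.Prime → ∀ r < q, P.real {ω | a q ω = r} = 1 / q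

/-- the sieving limit of Banks, Ford and Tao: the largest `m` with `∏_{q ≤ m} (1 - 1 / q)⁻¹ ≤ log n` -/
noncomputable def zBFT (n : ℕ) : ℕ := sSup {m : ℕ | (V m)⁻¹ ≤ Real.log n}

/-- the admissible sieving limits: the density of the random primes near `v` is asymptotic to `1 / log v` -/
def Limit (z : ℕ → ℕ) : Prop := Monotone z ∧ Tendsto (fun v => V (z v) * Real.log v) atTop (𝓝 1)

open Classical in
/-- the set of the random primes of a sample -/
def R {Ω : Type} (z : ℕ → ℕ) (κ : ℝ) (a : ℕ → Ω → ℕ) (ω : Ω) : Set ℕ :=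
  {v | 3 ≤ v ∧ ∀ q ≤ z v, q.Prime → v % q ≠ if (q : ℝ) ≤ κ * Real.log v then 0 else a q ω}

/-- the positive integer `M_p(A, B) = (A ^ p - B ^ p) / (A - B)` (the division is exact) -/
def M (A B : ℤ) (p : ℕ) : ℕ := ((A ^ p - B ^ p) / (A - B)).natAbs

/-- the number of the primes `p ≤ y` with `M_p(A, B)` in the set `S` -/
noncomputable def N (S : Set ℕ) (A B : ℤ) (y : ℕ) : ℕ := {p : ℕ | p ≤ y ∧ p.Prime ∧ M A B p ∈ S}.ncard

theorem result :
    (∃ (Ω : Type) (_ : MeasurableSpace Ω) (P : Measure Ω) (a : ℕ → Ω → ℕ), Model P a) ∧ Limit zBFT ∧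
    ∀ κ : ℝ, 0 < κ → ∀ z : ℕ → ℕ, Limit z →
      ∀ (Ω : Type) [MeasurableSpace Ω] (P : Measure Ω) (a : ℕ → Ω → ℕ), Model P a →
        ∀ᵐ ω ∂P, ∀ A B : ℤ, IsCoprime A B → 1 < A → -A < B → B < A →
          Tendsto (fun y : ℕ => (N (R z κ a ω) A B y : ℝ) / (Real.log y / Real.log A)) atTop
            (𝓝 (Real.exp Real.eulerMascheroniConstant)) ∧
          ∀ m : ℕ, IsGreatest {m : ℕ | (∃ s : ℤ, A = s ^ 2 ^ m) ∧ ∃ t : ℤ, -B = t ^ 2 ^ m} m →
            (Tendsto (fun y : ℕ => (N (R z κ a ω) A B y : ℝ) / (Real.log y / Real.log A)) atTop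
              (𝓝 (Real.exp Real.eulerMascheroniConstant + m * Real.log 2)) ↔ m = 0) := by
  classical
  refine ⟨?_, ⟨Pool.Agent.T2H32.BF.z0_mono, Pool.Agent.T2H32.BF.z0_lim⟩, ?_⟩
  · obtain ⟨Ω, i, P, a, h⟩ := Pool.Agent.T2H32.BF.exists_model
    exact ⟨Ω, i, P, a, h.measurable, h.independent, h.uniform⟩
  · intro κ hκ z hz Ω _ P a hmod
    have h : Pool.Agent.T2H32.BF.Model P a := ⟨hmod.measurable, hmod.independent, hmod.uniform⟩
    have hall : ∀ᵐ ω ∂P, ∀ A B : ℤ, IsCoprime A B → 1 < A → -A < B → B < A →
        Tendsto (fun y : ℕ => (((Finset.range (y + 1)).filter (fun p => p.Prime ∧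
          (Pool.Agent.H559.SQ.MM A B p).natAbs ∈
            Pool.Agent.H559.HY.RS z (Pool.Agent.H559.SQ.Wk κ) (fun q => a q ω))).card : ℝ) / Real.log y) atTop
          (𝓝 (Real.exp Real.eulerMascheroniConstant / Real.log A)) := by
      rw [ae_all_iff]
      intro A
      rw [ae_all_iff]
      intro B
      by_cases hAB : IsCoprime A B ∧ 1 < A ∧ -A < B ∧ B < A
      · filter_upwards [Pool.Agent.H559.SQ.law h z hz κ hκ A B hAB.2.1 hAB.2.2.1 hAB.2.2.2 hAB.1] with ω hω _ _ _ _
        exact hω
      · exact Filter.Eventually.of_forall fun ω h1 h2 h3 h4 => absurd ⟨h1, h2, h3, h4⟩ hAB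
    filter_upwards [hall] with ω hω A B hAB h1 h2 h3
    have e : R z κ a ω = Pool.Agent.H559.HY.RS z (Pool.Agent.H559.SQ.Wk κ) (fun p => a p ω) := by
      ext v
      simp only [R, Pool.Agent.H559.HY.RS, Set.mem_ofPred_eq]
      refine and_congr_right fun hv => ?_
      refine forall_congr' fun q => forall_congr' fun _ => forall_congr' fun _ => ?_
      have h0 : 0 ≤ κ * Real.log v := mul_nonneg hκ.le (Real.log_natCast_nonneg v)
      have h4 : (q : ℝ) ≤ κ * Real.log v ↔ q ≤ Pool.Agent.H559.SQ.Wk κ v := (Nat.le_floor_iff h0).symm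
      by_cases h5 : (q : ℝ) ≤ κ * Real.log v
      · rw [if_pos h5, if_pos (h4.1 h5)]
      · rw [if_neg h5, if_neg (fun h3 => h5 (h4.2 h3))]
    have hM : ∀ p : ℕ, M A B p = (Pool.Agent.H559.SQ.MM A B p).natAbs := by
      intro p
      unfold M
      rw [← Pool.Agent.H559.SQ.MM_mul A B p, Int.mul_ediv_cancel _ (by omega)]
    have hA0 : 0 < Real.log A := Real.log_pos (by exact_mod_cast h1)
    have hN : ∀ y : ℕ, N (R z κ a ω) A B y = ((Finset.range (y + 1)).filter (fun p => p.Prime ∧
          (Pool.Agent.H559.SQ.MM A B p).natAbs ∈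
            Pool.Agent.H559.HY.RS z (Pool.Agent.H559.SQ.Wk κ) (fun q => a q ω))).card := by
      intro y
      unfold N
      rw [← Set.ncard_coe_finset, e]
      congr 1
      ext p
      simp only [Finset.coe_filter, Finset.mem_range, Set.mem_ofPred_eq, hM]
      constructor
      · rintro ⟨h5, h6⟩
        exact ⟨by omega, h6⟩
      · rintro ⟨h5, h6⟩
        exact ⟨by omega, h6⟩
    have hlim : Tendsto (fun y : ℕ => (N (R z κ a ω) A B y : ℝ) / (Real.log y / Real.log A)) atTop
        (𝓝 (Real.exp Real.eulerMascheroniConstant)) := by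
      have h5 := (hω A B hAB h1 h2 h3).mul_const (Real.log A)
      rw [div_mul_cancel₀ _ hA0.ne'] at h5
      refine h5.congr fun y => ?_
      rw [hN y, div_div_eq_mul_div]
      ring
    refine ⟨hlim, fun m _ => ⟨fun h5 => ?_, fun h5 => ?_⟩⟩
    · have h6 := tendsto_nhds_unique hlim h5
      have h7 : (m : ℝ) * Real.log 2 = 0 := by linarith
      have h8 : Real.log 2 ≠ 0 := (Real.log_pos (by norm_num)).ne'
      have h9 : (m : ℝ) = 0 := (mul_eq_zero.1 h7).resolve_right h8
      exact_mod_cast h9
    · rw [h5]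
      simpa using hlim

end Pool.Agent.Results.MP_de9007_nt.LawInTheRandomSieve
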