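import Pool.Agent.H539.PR4
import Pool.Agent.H539.FF1

/-!
# Power residue laws modulo the primes `(a ^ q - b ^ q) / (a - b)`

Let `q` be an odd prime, `a`, `b` coprime integers with `q ∤ a - b`, and suppose that
`N = (a ^ q - b ^ q) / (a - b)` is a prime.  Modulo `N` the element `g = a / b` is a primitive
`q`-th root of unity, so that for every prime `l ≠ q, N` there is an index `c` modulo `q` with
`l ^ ((N - 1) / q) = g ^ c`.  We compute it:

* for every `l` in characteristic `l`: for every primitive `q`-th root of unity `z` in a field of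
  characteristic `l`, `∏_t (a - b z ^ (1 / t)) ^ (l - 1 - [l t / q]) = z ^ (l (Q b / (a - b) - c))`,
  where `t` runs through the units modulo `q` and `Q = (l ^ (q - 1) - 1) / q` is the Fermat quotient
  of `l`;
* in closed form, if `l` divides `a b (a ^ 2 - b ^ 2)`: the index is `Q a / (a - b)` if `l ∣ a`,
  `Q b / (a - b)` if `l ∣ b`, and `Q (a + b) / (2 (a - b))` if `l ∣ a - b` or `l ∣ a + b`.

In particular `3` is a `q`-th power modulo the Mersenne prime `2 ^ q - 1`, `q ≥ 5`, if and only if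
`q ^ 2` divides `3 ^ (q - 1) - 1`, and modulo a prime decimal repunit `(10 ^ q - 1) / 9`, `q ≠ 3, 11`,
if and only if the same holds.

Proof. The Jacobi sums of order `q` modulo `N` are known (`MP_de9007_nt/FactorialCriteria.lean`).  They
give the powers of the Gauss sum `G(χ)`, in particular `G(χ) ^ l / G(χ ^ l)`, as products of the
elements `ζ ^ (β / t) (a - b ζ ^ (1 / t))`, `β = b / (a - b)`; in characteristic `l` this quotient is
`χ(l) ^ (- l)`.  The root of unity is computed with Lerch's congruence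
`∑_t [l t / q] / t = l Q` modulo `q`.  If `l ∣ a ^ 2 - b ^ 2`, then the square of the product is
computed with the help of the substitution `t ↦ - t`.
-/

set_option autoImplicit false

namespace Pool.Agent.Results.MP_de9007_nt.ResidueLaws

open Finset

/-- The Fermat quotient `(l ^ (q - 1) - 1) / q`, modulo `q`. -/
def fermatQuotient (q l : ℕ) : ZMod q := (((l ^ (q - 1) - 1) / q : ℕ) : ZMod q)

open Pool.Agent.H140.FJ Pool.Agent.H140.JQ Pool.Agent.H539.PR in
theorem main (q : ℕ) [Fact q.Prime] (A B : ℤ) (N : ℕ) (hq2 : q ≠ 2) (hAB : IsCoprime A B)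
    (hn : ¬ (q : ℤ) ∣ A - B) (hN : (A - B) * N = A ^ q - B ^ q) (hp : N.Prime) :
    ∃ g : ZMod N, g * B = A ∧ g ^ q = 1 ∧ g ≠ 1 ∧
      ∀ l : ℕ, l.Prime → l ≠ q → l ≠ N →
        (∀ (L : Type) [Field L] [CharP L l] (z : L), z ^ q = 1 → z ≠ 1 → ∀ c : ZMod q,
          (l : ZMod N) ^ ((N - 1) / q) = g ^ c.val ↔
            (∏ t : (ZMod q)ˣ, ((A : L) - B * z ^ ((t : ZMod q)⁻¹).val) ^
              (l - 1 - l * (t : ZMod q).val / q)) * z ^ ((l : ZMod q) * c).val =
              z ^ ((l : ZMod q) * fermatQuotient q l * (B / (A - B))).val) ∧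
        ((l : ℤ) ∣ A → (l : ZMod N) ^ ((N - 1) / q) =
          g ^ (fermatQuotient q l * (A / (A - B))).val) ∧
        ((l : ℤ) ∣ B → (l : ZMod N) ^ ((N - 1) / q) =
          g ^ (fermatQuotient q l * (B / (A - B))).val) ∧
        ((l : ℤ) ∣ (A - B) * (A + B) → (l : ZMod N) ^ ((N - 1) / q) =
          g ^ (fermatQuotient q l * ((A + B) / (2 * (A - B)))).val) := by
  have D : Dat q N A B := ⟨hq2, hp, hAB, hn, hN⟩
  have : Fact N.Prime := ⟨hp⟩
  have hAB0 : ((A : ZMod q) - B) ≠ 0 := by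
    rw [← Int.cast_sub, Ne, ZMod.intCast_zmod_eq_zero_iff_dvd]
    exact hn
  have h20 : (2 : ZMod q) ≠ 0 := by
    intro h
    have h11 : ((2 : ℕ) : ZMod q) = 0 := by exact_mod_cast h
    rw [ZMod.natCast_eq_zero_iff] at h11
    have := Nat.le_of_dvd (by norm_num) h11
    have := three_le hq2
    omega
  have hbet : bet q A B = (B : ZMod q) / (A - B) := by
    rw [bet, div_eq_mul_inv]
    push_cast
    rfl
  refine ⟨gg N A B, gg_mul D, gg_pow D, gg_ne D, ?_⟩
  intro l hl hlq hlN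
  have : Fact l.Prime := ⟨hl⟩
  refine ⟨?_, ?_, ?_, ?_⟩
  · intro L _ _ z hz hz1 c
    have hzp : IsPrimitiveRoot z q := by
      have h1 : orderOf z = q := orderOf_eq_prime hz hz1
      rw [← h1]
      exact IsPrimitiveRoot.orderOf z
    have h1 := index_iff D hlq hlN hzp c
    have e1 : bet q A B * ((l : ZMod q) * fq q l) =
        (l : ZMod q) * fermatQuotient q l * (B / (A - B)) := by
      rw [hbet, fq, fermatQuotient]
      ring
    rw [e1] at h1
    have e2 : ∀ t : (ZMod q)ˣ, E z ((t⁻¹ : (ZMod q)ˣ) : ZMod q) = z ^ ((t : ZMod q)⁻¹).val := by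
      intro t
      rw [E, Units.val_inv_eq_inv_val]
    simp_rw [e2] at h1
    exact h1
  · intro h
    rw [closed_A D hlq hlN h, E, hbet]
    congr 2
    rw [fq, fermatQuotient]
    field_simp
    ring
  · intro h
    rw [closed_B D hlq hlN h, E, hbet, mul_comm]
    rfl
  · intro h
    have h3 : (l : ZMod N) ^ ((N - 1) / q) = E (gg N A B) ((bet q A B + 2⁻¹) * fq q l) := by
      rcases (Nat.prime_iff_prime_int.mp hl).dvd_or_dvd h with h1 | h1
      · exact closed_pm D hlq hlN (u := 1) (Or.inl rfl) (by rwa [one_mul])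
      · exact closed_pm D hlq hlN (u := -1) (Or.inr rfl) (by rwa [neg_one_mul, sub_neg_eq_add])
    rw [h3, E, hbet]
    congr 2
    rw [fq, fermatQuotient]
    field_simp
    ring

theorem fermatQuotient_eq_zero {q l : ℕ} [hq : Fact q.Prime] (h : ¬ q ∣ l) :
    fermatQuotient q l = 0 ↔ q ^ 2 ∣ l ^ (q - 1) - 1 := by
  have hpos : 1 ≤ l ^ (q - 1) := Nat.one_le_pow _ _ (by
    rcases Nat.eq_zero_or_pos l with h0 | h0
    · rw [h0] at h; exact absurd (dvd_zero q) h
    · exact h0)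
  have hlq0 : (l : ZMod q) ≠ 0 := by rwa [Ne, ZMod.natCast_eq_zero_iff]
  have hfl : q * ((l ^ (q - 1) - 1) / q) = l ^ (q - 1) - 1 := by
    apply Nat.mul_div_cancel'
    have h1 : ((l ^ (q - 1) - 1 : ℕ) : ZMod q) = 0 := by
      rw [Nat.cast_sub hpos]
      push_cast
      rw [ZMod.pow_card_sub_one_eq_one hlq0, sub_self]
    rwa [ZMod.natCast_eq_zero_iff] at h1
  rw [fermatQuotient, ZMod.natCast_eq_zero_iff, pow_two]
  conv_rhs => rw [← hfl]
  exact (Nat.mul_dvd_mul_iff_left hq.out.pos).symm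

theorem pow_iff {q N : ℕ} [hq : Fact q.Prime] (hp : N.Prime) (hd : q ∣ N - 1) {x : ZMod N}
    (hx : x ≠ 0) : (∃ y : ZMod N, y ^ q = x) ↔ x ^ ((N - 1) / q) = 1 := by
  have : Fact N.Prime := ⟨hp⟩
  have hM : (N - 1) / q * q = N - 1 := Nat.div_mul_cancel hd
  constructor
  · rintro ⟨y, rfl⟩
    have hy : y ≠ 0 := by
      rintro rfl
      exact hx (zero_pow hq.out.ne_zero)
    rw [← pow_mul, mul_comm, hM]
    exact ZMod.pow_card_sub_one_eq_one hy
  · intro h
    have hcard : Nat.card (ZMod N)ˣ = (N - 1) / q * q := by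
      rw [hM, Nat.card_eq_fintype_card, ZMod.card_units]
    obtain ⟨v, hv⟩ := Pool.Agent.H539.FF.exists_pow_of_pow_eq_one hcard (b := Units.mk0 x hx) (by
      ext
      simpa using h)
    exact ⟨v, by simpa using congrArg Units.val hv⟩

/-- the special case of a prime `l` which divides `A B (A ^ 2 - B ^ 2)` -/
theorem special (q : ℕ) [hq : Fact q.Prime] (A B : ℤ) (N : ℕ) (hq2 : q ≠ 2) (hAB : IsCoprime A B)
    (hn : ¬ (q : ℤ) ∣ A - B) (hN : (A - B) * N = A ^ q - B ^ q) (hp : N.Prime) (l : ℕ)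
    (hl : l.Prime) (hlq : l ≠ q) (hlN : l ≠ N)
    (h : ((l : ℤ) ∣ A ∧ ¬ (q : ℤ) ∣ A) ∨ ((l : ℤ) ∣ B ∧ ¬ (q : ℤ) ∣ B) ∨
      ((l : ℤ) ∣ (A - B) * (A + B) ∧ ¬ (q : ℤ) ∣ A + B)) :
    (∃ y : ZMod N, y ^ q = l) ↔ q ^ 2 ∣ l ^ (q - 1) - 1 := by
  obtain ⟨g, hg, hgq, hg1, hmain⟩ := main q A B N hq2 hAB hn hN hp
  obtain ⟨-, hA, hB, hS⟩ := hmain l hl hlq hlN
  have : Fact N.Prime := ⟨hp⟩
  have D : Pool.Agent.H140.JQ.Dat q N A B := ⟨hq2, hp, hAB, hn, hN⟩
  have hl0 : (l : ZMod N) ≠ 0 := by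
    rw [Ne, ZMod.natCast_eq_zero_iff, Nat.prime_dvd_prime_iff_eq hp hl]
    exact fun h => hlN h.symm
  have hndvd : ¬ q ∣ l := by
    rw [Nat.prime_dvd_prime_iff_eq hq.out hl]
    exact fun h => hlq h.symm
  have hAB0 : ((A : ZMod q) - B) ≠ 0 := by
    rw [← Int.cast_sub, Ne, ZMod.intCast_zmod_eq_zero_iff_dvd]
    exact hn
  have h20 : (2 : ZMod q) ≠ 0 := by
    intro h
    have h11 : ((2 : ℕ) : ZMod q) = 0 := by exact_mod_cast h
    rw [ZMod.natCast_eq_zero_iff] at h11
    have := Nat.le_of_dvd (by norm_num) h11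
    have := Pool.Agent.H140.JQ.three_le hq2
    omega
  rw [pow_iff hp (Pool.Agent.H140.JQ.q_dvd D) hl0, ← fermatQuotient_eq_zero hndvd]
  have hord : orderOf g = q := orderOf_eq_prime hgq hg1
  have key : ∀ c : ZMod q, g ^ c.val = 1 ↔ c = 0 := by
    intro c
    rw [← orderOf_dvd_iff_pow_eq_one, hord]
    constructor
    · intro h
      rw [← ZMod.val_eq_zero]
      exact Nat.eq_zero_of_dvd_of_lt h (ZMod.val_lt c)
    · rintro rfl
      simp
  rcases h with ⟨h1, h2⟩ | ⟨h1, h2⟩ | ⟨h1, h2⟩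
  · rw [hA h1, key, mul_eq_zero, or_iff_left]
    rw [← ZMod.intCast_zmod_eq_zero_iff_dvd] at h2
    exact div_ne_zero h2 hAB0
  · rw [hB h1, key, mul_eq_zero, or_iff_left]
    rw [← ZMod.intCast_zmod_eq_zero_iff_dvd] at h2
    exact div_ne_zero h2 hAB0
  · rw [hS h1, key, mul_eq_zero, or_iff_left]
    rw [← ZMod.intCast_zmod_eq_zero_iff_dvd] at h2
    push_cast at h2
    exact div_ne_zero h2 (mul_ne_zero h20 hAB0)

/-- **Power residue laws modulo the primes `(A ^ q - B ^ q) / (A - B)`.** -/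
theorem result :
    -- the index of a prime `l` modulo `N = (A ^ q - B ^ q) / (A - B)`
    (∀ (q : ℕ) [Fact q.Prime] (A B : ℤ) (N : ℕ), q ≠ 2 → IsCoprime A B →
      ¬ (q : ℤ) ∣ A - B → (A - B) * N = A ^ q - B ^ q → N.Prime →
      ∃ g : ZMod N, g * B = A ∧ g ^ q = 1 ∧ g ≠ 1 ∧
        ∀ l : ℕ, l.Prime → l ≠ q → l ≠ N →
          -- all primes, in characteristic `l`
          (∀ (L : Type) [Field L] [CharP L l] (z : L), z ^ q = 1 → z ≠ 1 → ∀ c : ZMod q,
            (l : ZMod N) ^ ((N - 1) / q) = g ^ c.val ↔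
              (∏ t : (ZMod q)ˣ, ((A : L) - B * z ^ ((t : ZMod q)⁻¹).val) ^
                (l - 1 - l * (t : ZMod q).val / q)) * z ^ ((l : ZMod q) * c).val =
                z ^ ((l : ZMod q) * fermatQuotient q l * (B / (A - B))).val) ∧
          -- the prime factors of `A B (A ^ 2 - B ^ 2)`, in closed form
          ((l : ℤ) ∣ A → (l : ZMod N) ^ ((N - 1) / q) =
            g ^ (fermatQuotient q l * (A / (A - B))).val) ∧
          ((l : ℤ) ∣ B → (l : ZMod N) ^ ((N - 1) / q) =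
            g ^ (fermatQuotient q l * (B / (A - B))).val) ∧
          ((l : ℤ) ∣ (A - B) * (A + B) → (l : ZMod N) ^ ((N - 1) / q) =
            g ^ (fermatQuotient q l * ((A + B) / (2 * (A - B)))).val)) ∧
    -- Mersenne primes
    (∀ q : ℕ, q.Prime → 5 ≤ q → (2 ^ q - 1).Prime →
      ((∃ x : ZMod (2 ^ q - 1), x ^ q = 3) ↔ q ^ 2 ∣ 3 ^ (q - 1) - 1)) ∧
    -- prime repunits
    (∀ q : ℕ, q.Prime → 5 ≤ q → ((10 ^ q - 1) / 9).Prime →
      (q ≠ 11 → ((∃ x : ZMod ((10 ^ q - 1) / 9), x ^ q = 3) ↔ q ^ 2 ∣ 3 ^ (q - 1) - 1)) ∧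
      (q ≠ 5 → ((∃ x : ZMod ((10 ^ q - 1) / 9), x ^ q = 2) ↔ q ^ 2 ∣ 2 ^ (q - 1) - 1)) ∧
      (q ≠ 5 → ((∃ x : ZMod ((10 ^ q - 1) / 9), x ^ q = 5) ↔ q ^ 2 ∣ 5 ^ (q - 1) - 1))) := by
  refine ⟨?_, ?_, ?_⟩
  · intro q _ A B N h1 h2 h3 h4 h5
    exact main q A B N h1 h2 h3 h4 h5
  · intro q hq h5 hp
    have : Fact q.Prime := ⟨hq⟩
    have hpow : 32 ≤ 2 ^ q := by
      calc 32 = 2 ^ 5 := by norm_num
        _ ≤ 2 ^ q := Nat.pow_le_pow_right (by norm_num) h5
    have key := special q 2 1 (2 ^ q - 1) (by omega) isCoprime_one_right (by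
      norm_num
      intro h
      have := Int.isUnit_iff.1 (isUnit_of_dvd_one h)
      omega) (by
      rw [Nat.cast_sub (by omega)]
      push_cast
      ring) hp 3 Nat.prime_three (by omega) (by omega) (Or.inr (Or.inr ⟨by norm_num, by
      norm_num
      intro h
      have h1 : q ∣ 3 := by exact_mod_cast h
      have := Nat.le_of_dvd (by norm_num) h1
      omega⟩))
    exact_mod_cast key
  · intro q hq h5 hp
    have : Fact q.Prime := ⟨hq⟩
    have hpow : 10 ^ 5 ≤ 10 ^ q := Nat.pow_le_pow_right (by norm_num) h5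
    have h9 : 9 * ((10 ^ q - 1) / 9) = 10 ^ q - 1 := by
      apply Nat.mul_div_cancel'
      have := Nat.sub_dvd_pow_sub_pow 10 1 q
      simpa using this
    have hbig : 100 < (10 ^ q - 1) / 9 := by
      norm_num at hpow
      omega
    have hcop : IsCoprime (10 : ℤ) 1 := isCoprime_one_right
    have hnd : ¬ (q : ℤ) ∣ 10 - 1 := by
      norm_num
      intro h
      have h1 : q ∣ 9 := by exact_mod_cast h
      have h2 : q ∣ 3 ^ 2 := by norm_num; exact h1
      have h3 := hq.dvd_of_dvd_pow h2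
      have := Nat.le_of_dvd (by norm_num) h3
      omega
    have hN : (10 - 1 : ℤ) * ((10 ^ q - 1) / 9 : ℕ) = 10 ^ q - 1 ^ q := by
      have h1 : ((9 * ((10 ^ q - 1) / 9) : ℕ) : ℤ) = ((10 ^ q - 1 : ℕ) : ℤ) := by rw [h9]
      rw [Nat.cast_sub (by omega)] at h1
      push_cast at h1
      rw [one_pow]
      push_cast
      linarith
    refine ⟨fun h11 => ?_, fun h55 => ?_, fun h55 => ?_⟩
    · have key := special q 10 1 _ (by omega) hcop hnd hN hp 3 Nat.prime_three (by omega)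
        (by omega) (Or.inr (Or.inr ⟨by norm_num, by
          norm_num
          intro h
          have h1 : q ∣ 11 := by exact_mod_cast h
          exact h11 ((Nat.prime_dvd_prime_iff_eq hq (by norm_num)).1 h1)⟩))
      exact_mod_cast key
    · have key := special q 10 1 _ (by omega) hcop hnd hN hp 2 Nat.prime_two (by omega)
        (by omega) (Or.inl ⟨by norm_num, by
          intro h
          have h1 : q ∣ 10 := by exact_mod_cast h
          have h2 : q ∣ 2 * 5 := by norm_num; exact h1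
          rcases hq.dvd_mul.1 h2 with h3 | h3
          · have := Nat.le_of_dvd (by norm_num) h3
            omega
          · exact h55 ((Nat.prime_dvd_prime_iff_eq hq (by norm_num)).1 h3)⟩)
      exact_mod_cast key
    · have key := special q 10 1 _ (by omega) hcop hnd hN hp 5 Nat.prime_five (fun h => h55 h.symm)
        (by omega) (Or.inl ⟨by norm_num, by
          intro h
          have h1 : q ∣ 10 := by exact_mod_cast h
          have h2 : q ∣ 2 * 5 := by norm_num; exact h1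
          rcases hq.dvd_mul.1 h2 with h3 | h3
          · have := Nat.le_of_dvd (by norm_num) h3
            omega
          · exact h55 ((Nat.prime_dvd_prime_iff_eq hq (by norm_num)).1 h3)⟩)
      exact_mod_cast key

end Pool.Agent.Results.MP_de9007_nt.ResidueLaws
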